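import Pool.Agent.H293.EX.Stm

set_option autoImplicit false

/-!
# Project EX: the lower limit of an almost periodic function and the relations between its frequencies
-/

namespace Pool.Agent.H293.EX

open MeasureTheory Filter Topology Set Complex
open scoped ComplexConjugate

/-- the phase -/
noncomputable def vv (a γ : ℝ) : ℂ := ((a : ℂ) + γ * I) / ((a : ℂ) - γ * I)

lemma ne_m {a : ℝ} (ha : 0 < a) (γ : ℝ) : (a : ℂ) - γ * I ≠ 0 := by
  intro h
  have := congrArg Complex.re h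
  simp at this
  linarith

lemma ne_p {a : ℝ} (ha : 0 < a) (γ : ℝ) : (a : ℂ) + γ * I ≠ 0 := by
  intro h
  have := congrArg Complex.re h
  simp at this
  linarith

lemma conj_p (a γ : ℝ) : conj ((a : ℂ) + γ * I) = (a : ℂ) - γ * I := by
  simp only [map_add, map_mul, conj_ofReal, conj_I]
  ring

lemma vv_norm {a : ℝ} (ha : 0 < a) (γ : ℝ) : ‖vv a γ‖ = 1 := by
  unfold vv
  rw [norm_div, ← conj_p, RCLike.norm_conj, div_self]
  exact norm_ne_zero_iff.2 (ne_p ha γ)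

lemma vv_ne {a : ℝ} (ha : 0 < a) (γ : ℝ) : vv a γ ≠ 0 := by
  rw [← norm_ne_zero_iff, vv_norm ha]
  exact one_ne_zero

lemma vv_zero {a : ℝ} (ha : 0 < a) : vv a 0 = 1 := by
  unfold vv
  have : (a : ℂ) ≠ 0 := by exact_mod_cast ha.ne'
  simp [this]

lemma vv_neg (a γ : ℝ) : vv a (-γ) = conj (vv a γ) := by
  unfold vv
  rw [map_div₀, conj_p]
  have e : conj ((a : ℂ) - γ * I) = (a : ℂ) + γ * I := by
    rw [← conj_p, conj_conj]
  rw [e]
  push_cast
  congr 1 <;> ring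

/-- the coefficient -/
lemma coef_eq {a : ℝ} (ha : 0 < a) (γ : ℝ) (z : ℂ) :
    (z / ((a : ℂ) + I * γ) ^ 2).re = (z * conj (vv a γ)).re / (a ^ 2 + γ ^ 2) := by
  have h1 := ne_p ha γ
  have h2 := ne_m ha γ
  have h3 : conj (vv a γ) = ((a : ℂ) - γ * I) / ((a : ℂ) + γ * I) := by
    rw [← vv_neg]
    unfold vv
    push_cast
    congr 1 <;> ring
  have h4 : ((a ^ 2 + γ ^ 2 : ℝ) : ℂ) = ((a : ℂ) + γ * I) * ((a : ℂ) - γ * I) := by
    push_cast
    ring_nf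
    rw [I_sq]
    ring
  have h5 : z / ((a : ℂ) + I * γ) ^ 2 = (z * conj (vv a γ)) / ((a ^ 2 + γ ^ 2 : ℝ) : ℂ) := by
    rw [h3, h4, mul_comm I (γ : ℂ)]
    field_simp
  rw [h5, div_ofReal_re]

lemma re_le_one {z w : ℂ} (hz : ‖z‖ = 1) (hw : ‖w‖ = 1) : (z * conj w).re ≤ 1 := by
  refine (re_le_norm _).trans ?_
  rw [norm_mul, RCLike.norm_conj, hz, hw, one_mul]

lemma neg_one_le_re {z w : ℂ} (hz : ‖z‖ = 1) (hw : ‖w‖ = 1) : -1 ≤ (z * conj w).re := by
  have h := (abs_le.1 (abs_re_le_norm (z * conj w))).1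
  rw [norm_mul, RCLike.norm_conj, hz, hw, one_mul] at h
  exact h

lemma dist_sq {z w : ℂ} (hz : ‖z‖ = 1) (hw : ‖w‖ = 1) : ‖z - w‖ ^ 2 = 2 * (1 - (z * conj w).re) := by
  have h1 : normSq z = 1 := by rw [normSq_eq_norm_sq, hz]; norm_num
  have h2 : normSq w = 1 := by rw [normSq_eq_norm_sq, hw]; norm_num
  rw [← normSq_eq_norm_sq, normSq_sub, h1, h2]
  ring

lemma one_sub_le {z w : ℂ} (hz : ‖z‖ = 1) (hw : ‖w‖ = 1) : 1 - (z * conj w).re ≤ ‖z - w‖ := by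
  have h1 := dist_sq hz hw
  have h2 : ‖z - w‖ ≤ 2 := (norm_sub_le _ _).trans (by rw [hz, hw]; norm_num)
  have h3 := norm_nonneg (z - w)
  nlinarith

lemma norm_e (γ u : ℝ) : ‖cexp (I * γ * u)‖ = 1 := by
  rw [show (I * γ * u : ℂ) = ((γ * u : ℝ) : ℂ) * I by push_cast; ring, norm_exp_ofReal_mul_I]

lemma e_neg (γ u : ℝ) : cexp (I * ((-γ : ℝ) : ℂ) * u) = conj (cexp (I * γ * u)) := by
  rw [← exp_conj]
  congr 1
  simp only [map_mul, conj_I, conj_ofReal]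
  push_cast
  ring

section main

variable {m : ℝ → ℝ} (hm0 : ∀ γ, 0 ≤ m γ) (hms : ∀ γ, m (-γ) = m γ)
  (hs : Summable (fun γ : ℝ => m γ * (2 / (1 + γ ^ 2)))) {a : ℝ} (ha : 0 < a)

/-- the weights -/
noncomputable def bb (m : ℝ → ℝ) (a γ : ℝ) : ℝ := m γ / (a ^ 2 + γ ^ 2)

include hm0 in
lemma bb_nonneg (a γ : ℝ) : 0 ≤ bb m a γ := div_nonneg (hm0 γ) (by positivity)

include hm0 hs ha in
lemma bb_sum : Summable (bb m a) := by
  have hc : 0 < min (a ^ 2) 1 := lt_min (by positivity) one_pos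
  refine Summable.of_nonneg_of_le (bb_nonneg hm0 a) (fun γ => ?_) (hs.mul_left (1 / min (a ^ 2) 1))
  unfold bb
  have h1 : min (a ^ 2) 1 * (1 + γ ^ 2) ≤ a ^ 2 + γ ^ 2 := by
    have h2 : min (a ^ 2) 1 ≤ a ^ 2 := min_le_left _ _
    have h3 : min (a ^ 2) 1 ≤ 1 := min_le_right _ _
    nlinarith [sq_nonneg γ]
  have h4 : m γ / (a ^ 2 + γ ^ 2) ≤ m γ / (min (a ^ 2) 1 * (1 + γ ^ 2)) :=
    div_le_div_of_nonneg_left (hm0 γ) (by positivity) h1
  refine h4.trans ?_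
  have h5 : m γ / (min (a ^ 2) 1 * (1 + γ ^ 2)) = 1 / min (a ^ 2) 1 * (m γ * (1 / (1 + γ ^ 2))) := by
    field_simp
  rw [h5]
  refine mul_le_mul_of_nonneg_left (mul_le_mul_of_nonneg_left ?_ (hm0 γ)) (by positivity)
  gcongr
  norm_num

/-- the real part -/
noncomputable def rr (a γ u : ℝ) : ℝ := (cexp (I * γ * u) * conj (vv a γ)).re

include ha in
lemma rr_le (γ u : ℝ) : rr a γ u ≤ 1 := re_le_one (norm_e γ u) (vv_norm ha γ)

include ha in
lemma le_rr (γ u : ℝ) : -1 ≤ rr a γ u := neg_one_le_re (norm_e γ u) (vv_norm ha γ)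

/-- the defect -/
noncomputable def DD (m : ℝ → ℝ) (a u : ℝ) : ℝ := ∑' γ : ℝ, bb m a γ * (1 - rr a γ u)

include hm0 hs ha in
lemma dd_sum (u : ℝ) : Summable fun γ : ℝ => bb m a γ * (1 - rr a γ u) := by
  refine Summable.of_nonneg_of_le (fun γ => mul_nonneg (bb_nonneg hm0 a γ) ?_) (fun γ => ?_)
    ((bb_sum hm0 hs ha).mul_left 2)
  · linarith [rr_le ha γ u]
  · have h1 := le_rr ha γ u
    have h2 := bb_nonneg hm0 a γ
    nlinarith

include hm0 hs ha in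
lemma tsum_eq (u : ℝ) : ∑' γ : ℝ, m γ * (cexp (I * γ * u) / ((a : ℂ) + I * γ) ^ 2).re =
    (∑' γ : ℝ, bb m a γ) - DD m a u := by
  unfold DD
  rw [← (bb_sum hm0 hs ha).tsum_sub (dd_sum hm0 hs ha u)]
  refine tsum_congr fun γ => ?_
  rw [coef_eq ha]
  unfold bb rr
  ring

include hm0 ha in
lemma dd_nonneg (u : ℝ) : 0 ≤ DD m a u :=
  tsum_nonneg fun γ => mul_nonneg (bb_nonneg hm0 a γ) (by linarith [rr_le ha γ u])

/-- the condition on the relations -/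
def Rel (m : ℝ → ℝ) (a : ℝ) : Prop := ∀ S : Finset ℝ, (∀ γ ∈ S, 0 < γ ∧ m γ ≠ 0) → ∀ n : ℝ → ℤ,
  ∑ γ ∈ S, (n γ : ℝ) * γ = 0 → ∏ γ ∈ S, (((a : ℂ) + γ * I) / ((a : ℂ) - γ * I)) ^ (n γ) = 1

variable {F : ℝ → ℝ} (hF : Tendsto (fun u : ℝ => F u + ∑' γ : ℝ, m γ * (cexp (I * γ * u) / ((a : ℂ) + I * γ) ^ 2).re)
  atTop (𝓝 0))

include hm0 hs ha hF in
lemma lim_DD : Tendsto (fun u : ℝ => F u + ((∑' γ : ℝ, bb m a γ) - DD m a u)) atTop (𝓝 0) := by
  refine hF.congr fun u => ?_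
  rw [tsum_eq hm0 hs ha]

include hm0 hs ha hF in
theorem lower_bound (ε : ℝ) (hε : 0 < ε) : ∀ᶠ u : ℝ in atTop, -(∑' γ : ℝ, bb m a γ) - ε ≤ F u := by
  have h := lim_DD hm0 hs ha hF
  filter_upwards [h.eventually (lt_mem_nhds (show -ε < 0 by linarith))] with u hu
  have := dd_nonneg hm0 ha u
  linarith

include hm0 hs ha hF in
theorem rel_of_liminf (h : ∀ ε : ℝ, 0 < ε → ∃ᶠ u : ℝ in atTop, F u ≤ -(∑' γ : ℝ, bb m a γ) + ε) : Rel m a := by
  intro S hS n hn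
  have hlim := lim_DD hm0 hs ha hF
  -- points where the phases are close
  have key : ∀ δ : ℝ, 0 < δ → ∃ u : ℝ, ∀ γ ∈ S, ‖cexp (I * γ * u) - vv a γ‖ ≤ δ := by
    intro δ hδ
    have hb : ∀ γ ∈ S, 0 < bb m a γ := by
      intro γ hγ
      refine div_pos (lt_of_le_of_ne (hm0 γ) (hS γ hγ).2.symm) ?_
      have := (hS γ hγ).1
      positivity
    obtain ⟨c, hc0, hc⟩ : ∃ c : ℝ, 0 < c ∧ ∀ γ ∈ S, c ≤ bb m a γ := by
      rcases S.eq_empty_or_nonempty with hSe | hSe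
      · exact ⟨1, one_pos, fun γ hγ => by rw [hSe] at hγ; simp at hγ⟩
      · obtain ⟨x, hx, hmin⟩ := S.exists_min_image (bb m a) hSe
        exact ⟨bb m a x, hb x hx, hmin⟩
    set ε : ℝ := c * δ ^ 2 / 4 with hεd
    have hε : 0 < ε := by positivity
    obtain ⟨u, h1, h2⟩ := ((h ε hε).and_eventually (hlim.eventually (gt_mem_nhds hε))).exists
    have h2' : F u + ((∑' γ : ℝ, bb m a γ) - DD m a u) < ε := h2
    -- lower bound of `F` is needed
    obtain ⟨u, h1, h3⟩ := ((h ε hε).and_eventually (hlim.eventually (lt_mem_nhds (show -ε < 0 by linarith)))).exists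
    have h4 : DD m a u < 2 * ε := by linarith
    refine ⟨u, fun γ hγ => ?_⟩
    have h5 : bb m a γ * (1 - rr a γ u) ≤ DD m a u :=
      (dd_sum hm0 hs ha u).le_tsum γ fun j _ => mul_nonneg (bb_nonneg hm0 a j) (by linarith [rr_le ha j u])
    have h6 : c * (1 - rr a γ u) ≤ bb m a γ * (1 - rr a γ u) :=
      mul_le_mul_of_nonneg_right (hc γ hγ) (by linarith [rr_le ha γ u])
    have h7 := dist_sq (norm_e γ u) (vv_norm ha γ)
    have h8 : c * ‖cexp (I * γ * u) - vv a γ‖ ^ 2 ≤ c * δ ^ 2 := by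
      rw [h7]
      have : c * (2 * (1 - rr a γ u)) ≤ c * δ ^ 2 := by
        rw [hεd] at h4
        nlinarith
      exact this
    have h9 := le_of_mul_le_mul_left h8 hc0
    exact le_of_sq_le_sq h9 hδ.le
  choose! f hf using key
  have hpos : ∀ k : ℕ, (0 : ℝ) < 1 / ((k : ℝ) + 1) := fun k => by positivity
  have ht : ∀ γ ∈ S, Tendsto (fun k : ℕ => cexp (I * γ * ((f (1 / ((k : ℝ) + 1)) : ℝ) : ℂ))) atTop (𝓝 (vv a γ)) := by
    intro γ hγ
    rw [tendsto_iff_norm_sub_tendsto_zero]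
    exact squeeze_zero (fun _ => norm_nonneg _) (fun k => hf _ (hpos k) γ hγ) tendsto_one_div_add_atTop_nhds_zero_nat
  have hp : Tendsto (fun k : ℕ => ∏ γ ∈ S, (cexp (I * γ * ((f (1 / ((k : ℝ) + 1)) : ℝ) : ℂ))) ^ (n γ)) atTop
      (𝓝 (∏ γ ∈ S, (vv a γ) ^ (n γ))) :=
    tendsto_finsetProd S fun γ hγ => (ht γ hγ).zpow₀ (n γ) (Or.inl (vv_ne ha γ))
  have h1 : ∀ u : ℝ, ∏ γ ∈ S, (cexp (I * γ * (u : ℂ))) ^ (n γ) = 1 := by
    intro u
    have e1 : ∀ γ : ℝ, (cexp (I * γ * (u : ℂ))) ^ (n γ) = cexp (I * u * (((n γ : ℝ) * γ : ℝ) : ℂ)) := by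
      intro γ
      rw [← Complex.exp_int_mul]
      congr 1
      push_cast
      ring
    simp only [e1]
    rw [← Complex.exp_sum, ← Finset.mul_sum, ← ofReal_sum, hn]
    simp
  simp only [h1] at hp
  exact (tendsto_nhds_unique hp tendsto_const_nhds)

include hm0 hms hs ha hF in
theorem liminf_of_rel (hKR : S_KR) (h : Rel m a) (ε : ℝ) (hε : 0 < ε) :
    ∃ᶠ u : ℝ in atTop, F u ≤ -(∑' γ : ℝ, bb m a γ) + ε := by
  classical
  have hlim := lim_DD hm0 hs ha hF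
  have hbs := bb_sum hm0 hs ha
  rw [frequently_atTop]
  intro T
  -- a finite set of frequencies
  obtain ⟨S0, hS0⟩ : ∃ S0 : Finset ℝ, ∑' γ : ↥((S0 : Set ℝ)ᶜ), bb m a γ < ε / 8 := by
    have h1 := tendsto_tsum_compl_atTop_zero (bb m a)
    have h2 := (h1.eventually (gt_mem_nhds (show (0 : ℝ) < ε / 8 by linarith))).exists
    exact h2
  set W : ℝ := ∑' γ : ℝ, bb m a γ with hW
  have hW0 : 0 ≤ W := tsum_nonneg (bb_nonneg hm0 a)
  set δ : ℝ := ε / (8 * (W + 1)) with hδd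
  have hδ : 0 < δ := by positivity
  set S : Finset ℝ := ((S0 ∪ S0.image (fun x => -x)).filter fun γ => 0 < γ ∧ m γ ≠ 0) with hSd
  have hS : ∀ γ ∈ S, 0 < γ ∧ m γ ≠ 0 := fun γ hγ => (Finset.mem_filter.1 hγ).2
  obtain ⟨T1, hT1⟩ := eventually_atTop.1 (hlim.eventually (gt_mem_nhds (show (0 : ℝ) < ε / 2 by linarith)))
  obtain ⟨u, hu, hu2⟩ := hKR S (vv a) (fun γ _ => vv_norm ha γ) (h S hS) δ hδ (max T T1)
  refine ⟨u, (le_max_left _ _).trans hu, ?_⟩
  have h3 : F u + (W - DD m a u) < ε / 2 := hT1 u ((le_max_right _ _).trans hu)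
  -- closeness for all frequencies of `S0`
  have h4 : ∀ γ ∈ S0, bb m a γ * (1 - rr a γ u) ≤ bb m a γ * δ := by
    intro γ hγ
    by_cases hmγ : m γ = 0
    · have : bb m a γ = 0 := by unfold bb; rw [hmγ, zero_div]
      rw [this, zero_mul, zero_mul]
    · refine mul_le_mul_of_nonneg_left ?_ (bb_nonneg hm0 a γ)
      rcases lt_trichotomy γ 0 with hneg | hzero | hpos
      · have hmem : -γ ∈ S := by
          rw [hSd, Finset.mem_filter]
          refine ⟨Finset.mem_union_right _ (Finset.mem_image.2 ⟨γ, hγ, rfl⟩), by linarith, ?_⟩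
          rw [hms]
          exact hmγ
        have h5 := one_sub_le (norm_e (-γ) u) (vv_norm ha (-γ))
        have h6 := hu2 (-γ) hmem
        have h7 : (cexp (I * ((-γ : ℝ) : ℂ) * u) * conj (vv a (-γ))).re = rr a γ u := by
          unfold rr
          rw [e_neg, vv_neg, ← map_mul, conj_re]
        rw [h7] at h5
        linarith
      · have : rr a γ u = 1 := by
          unfold rr
          rw [hzero, vv_zero ha]
          simp
        rw [this]
        linarith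
      · have hmem : γ ∈ S := by
          rw [hSd, Finset.mem_filter]
          exact ⟨Finset.mem_union_left _ hγ, hpos, hmγ⟩
        have h5 := one_sub_le (norm_e γ u) (vv_norm ha γ)
        have h6 := hu2 γ hmem
        have h7 : (cexp (I * γ * u) * conj (vv a γ)).re = rr a γ u := rfl
        rw [h7] at h5
        linarith
  have h5 : DD m a u ≤ ε / 2 := by
    unfold DD
    have hd := dd_sum hm0 hs ha u
    rw [← hd.sum_add_tsum_compl (s := S0)]
    have h6 : ∑ γ ∈ S0, bb m a γ * (1 - rr a γ u) ≤ ε / 8 := by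
      calc ∑ γ ∈ S0, bb m a γ * (1 - rr a γ u) ≤ ∑ γ ∈ S0, bb m a γ * δ := Finset.sum_le_sum h4
        _ = (∑ γ ∈ S0, bb m a γ) * δ := by rw [Finset.sum_mul]
        _ ≤ W * δ := mul_le_mul_of_nonneg_right (hbs.sum_le_tsum S0 fun γ _ => bb_nonneg hm0 a γ) hδ.le
        _ ≤ (W + 1) * δ := by nlinarith
        _ = ε / 8 := by
          rw [hδd]
          field_simp
    have h7 : ∑' γ : ↥((S0 : Set ℝ)ᶜ), bb m a γ * (1 - rr a γ u) ≤ 2 * ∑' γ : ↥((S0 : Set ℝ)ᶜ), bb m a γ := by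
      rw [← tsum_mul_left]
      refine Summable.tsum_le_tsum (fun γ => ?_) (hd.subtype _) ((hbs.subtype _).mul_left 2)
      have h8 := le_rr ha γ u
      have h9 := bb_nonneg hm0 a (γ : ℝ)
      nlinarith
    linarith
  linarith

end main

end Pool.Agent.H293.EX
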