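import Pool.Agent.H293.EX.Stm
import Pool.Graph.R_pool_sql_team_seeded_3997aac3.Q14.LQ.LA

set_option autoImplicit false

/-! # Project EX (helper293): statements on the error term and Landau's theorem -/

namespace Pool.Agent.H293.EX

open MeasureTheory Filter Topology Set Complex
open Pool.Agent.Q253.LQ Pool.Agent.Q14.LQ

/-- `F_a(x)` for `x = e^u`:
`φ(q) ∑_{n ≤ x, n ≡ 1 (q)} Λ(n) n^(-1/2) (n/x)^a log(x/n) - √x/(a+1/2)²` (the terms with `n > x` vanish) -/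
noncomputable def FF (q : ℕ) (a u : ℝ) : ℝ :=
  (Nat.totient q : ℝ) * (∑' n : ℕ, if n % q = 1 % q then ArithmeticFunction.vonMangoldt n *
    (Real.exp (-(Real.log n / 2)) * (max (u - Real.log n) 0 * Real.exp (-(a * (u - Real.log n))))) else 0) -
    Real.exp (u / 2) / (a + 1 / 2) ^ 2

/-- CV.  The convolution identity.  Proof: `EE q u` is `φ(q) ∑ Λ(n) n^(-1/2) e^(-|u - log n|) - (8/3) e^(u/2)`; apply `S_KI` with
`v = u - log n` for every `n` and exchange sum and integral (`hasSum_integral_of_summable_integral_norm` or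
`integral_tsum`; `∫ |κ(w)| e^(-|u - w - log n|) dw ≤ C (a, u) / n` because `e^(-|u - w - log n|) ≤ e^(u - w)/n`
and `∑ Λ(n) n^(-3/2) < ∞`, library: `Pool.Agent.Q14.LQ.Lam_summable`), and for the main term `S_KE` with `s = 1/2`:
`-(8/3) (-1/2 + a/(a+1/2) - (a²-1)/2/(a+1/2)²) = -1/(a+1/2)²`. -/
def S_CV : Prop := ∀ (q : ℕ) [NeZero q] (a : ℝ), 0 < a → ∀ u : ℝ,
  IntegrableOn (fun w : ℝ => kap a w * EE q (u - w)) (Ioi 0) ∧
  FF q a u = -(1 / 2) * EE q u + ∫ w in Ioi (0 : ℝ), kap a w * EE q (u - w)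

/-- LT.  Continuity and Laplace transform, for the product `Ex q` (defined in `Q14/LQ/LA.lean`).  Proof: continuity as
for `ES` in `Pool/Graph/R_pool_sql_team_seeded_3997aac3/Q14/LQ/Lt.lean` (locally the sum is finite; or `continuous_tsum`);
`∫_0^∞ max (u-l) 0 e^(-a(u-l)) e^(-zu) du = e^(-zl)/(z+a)²` for `l = log n ≥ 0`, sum over `n`
(`∑ Λ(n) n^(-1/2) e^(-σ log n) < ∞` for `σ > 1/2`: `Lam_summable`); then as in `key_id` (`DS_be`, `Ex_log` in `LA.lean`): for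
`Re z > 1` the transform of `-FF` is `∑_χ (L'/L)(1/2+z, χ)/(z+a)² + 1/((a+1/2)² (z-1/2))`, and
`deriv E z = (∑_χ (L'/L)(1/2+z, χ) + 1/(z-1/2)) E z`, `E z = Ex q (1/2+z)`, and
`(z+a)²/(a+1/2)² - 1 = (z-1/2) (z+2a+1/2)/(a+1/2)²`. -/
def S_LT : Prop := ∀ (q : ℕ) [NeZero q] (a : ℝ), 0 < a → Continuous (FF q a) ∧
  (∀ σ : ℝ, 1 / 2 < σ → IntegrableOn (fun u => |FF q a u| * Real.exp (-(σ * u))) (Ioi 0)) ∧
  ∀ z : ℂ, 1 < z.re → 2 * (z + a) ^ 2 * lp (fun u => -FF q a u) z * Ex q (1 / 2 + z) =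
    2 * deriv (fun z => Ex q (1 / 2 + z)) z -
      (-(2 * (z + 2 * a + 1 / 2) / (a + 1 / 2) ^ 2)) * Ex q (1 / 2 + z)

/-- LG.  Landau's theorem, abstract form.  This is `Pool.Agent.Q14.LQ.LA_abs` (file `Q14/LQ/LA2.lean`) with a general entire
function `D` in place of `1 - z²`; copy its proof: on the real axis `D` is real and positive, and on `[s0, s0 + 1/4]`
bounded by a constant `K'` (compactness), so `2 Re A(t) ≤ K' Re lp f₊ (s0) + K`; `D(z) ≠ 0` for `Re z > 0` is used where there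
`hsq` is used. -/
def S_LG : Prop := ∀ (f : ℝ → ℝ), Continuous f →
  (∀ σ : ℝ, 0 < σ → IntegrableOn (fun u => max (f u) 0 * Real.exp (-(σ * u))) (Ioi 0)) →
  (∀ σ : ℝ, 1 / 2 < σ → IntegrableOn (fun u => max (-f u) 0 * Real.exp (-(σ * u))) (Ioi 0)) →
  ∀ (E H D : ℂ → ℂ), Differentiable ℂ E → Differentiable ℂ H → Differentiable ℂ D → (∃ z, E z ≠ 0) →
  (∀ z : ℂ, 0 < z.re → D z ≠ 0) → (∀ t : ℝ, 0 < t → (D t).im = 0 ∧ 0 < (D t).re) →
  (∀ z : ℂ, 1 < z.re → D z * lp f z * E z = 2 * deriv E z - H z * E z) →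
  ∀ z : ℂ, 0 < z.re → E z ≠ 0

end Pool.Agent.H293.EX
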