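import Pool.Agent.H293.LQ.A4
import Pool.Agent.H293.EX.PH
import Pool.Agent.H293.EX.Stm2

set_option autoImplicit false

/-!
# Project EX: assembly
-/

namespace Pool.Agent.H293.EX

open MeasureTheory Filter Topology Set Complex
open Pool.Agent.Q253.LQ Pool.Agent.Q14.LQ Pool.Agent.H293.LQ
open DirichletCharacter (LFunction)

lemma EE_bdd (q : ℕ) : ∃ C : ℝ, ∀ v : ℝ, v ≤ 0 → |EE q v| ≤ C := by
  set K : ℝ := ∑' n : ℕ, ‖be q n‖ * Real.exp (-(1 * Real.log n)) with hK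
  have hK0 : 0 ≤ K := tsum_nonneg fun n => mul_nonneg (norm_nonneg _) (Real.exp_pos _).le
  refine ⟨(Nat.totient q : ℝ) * K + 8 / 3, fun v hv => ?_⟩
  have h1 := ES_bound (HB_be q) (x := 1) (by norm_num) le_rfl v
  rw [← hK] at h1
  have h2 : Real.exp (1 * v) ≤ 1 := Real.exp_le_one_iff.2 (by linarith)
  have h3 : ‖ES (be q) v‖ ≤ K := h1.trans (by nlinarith)
  have h4 : Real.exp (v / 2) ≤ 1 := Real.exp_le_one_iff.2 (by linarith)
  have h5 : |EE q v| = ‖((EE q v : ℝ) : ℂ)‖ := by rw [Complex.norm_real, Real.norm_eq_abs]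
  rw [h5, EE_eq]
  refine (norm_sub_le _ _).trans ?_
  rw [norm_mul, Complex.norm_real, Complex.norm_natCast, Real.norm_of_nonneg (by positivity)]
  have h6 : (0 : ℝ) ≤ (Nat.totient q : ℝ) := Nat.cast_nonneg _
  nlinarith [mul_le_mul_of_nonneg_left h3 h6]

variable {q : ℕ} [NeZero q]

lemma mm0 (γ : ℝ) : (0 : ℝ) ≤ (MM q γ : ℝ) := Nat.cast_nonneg _

lemma mms (γ : ℝ) : (MM q (-γ) : ℝ) = (MM q γ : ℝ) := by rw [MM_neg]

lemma mm_sum (hG : ∀ χ : DirichletCharacter ℂ q, GRHc χ) :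
    Summable (fun γ : ℝ => (MM q γ : ℝ) * (2 / (1 + γ ^ 2))) := cc_sum hG

theorem hF_of_grh (hAS : S_AS) (hCV : S_CV) (hG : ∀ χ : DirichletCharacter ℂ q, GRHc χ) {a : ℝ} (ha : 0 < a) :
    Tendsto (fun u : ℝ => FF q a u +
      ∑' γ : ℝ, (MM q γ : ℝ) * (cexp (I * γ * u) / ((a : ℂ) + I * γ) ^ 2).re) atTop (𝓝 0) := by
  obtain ⟨C1, hC10, hC1⟩ := err hG
  obtain ⟨C2, hC2⟩ := EE_bdd q
  have h := hAS a (fun γ => (MM q γ : ℝ)) (EE q) (max C1 C2) ha mm0 (mm_sum hG) (EE_cont q)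
    (fun v hv => (hC2 v hv).trans (le_max_right _ _))
    (fun v hv => (hC1 v hv).trans (mul_le_mul_of_nonneg_right (le_max_left _ _) (Real.exp_pos _).le))
  refine h.congr fun u => ?_
  rw [(hCV q a ha u).2]

/-- the constant -/
noncomputable def WW (q : ℕ) [NeZero q] (a : ℝ) : ℝ := (XX q (a : ℂ)).re / a

theorem WW_eq (hG : ∀ χ : DirichletCharacter ℂ q, GRHc χ) {a : ℝ} (ha : 0 < a) :
    ∑' γ : ℝ, bb (fun γ => (MM q γ : ℝ)) a γ = WW q a := by
  have h := sum_pf hG (z := (a : ℂ)) (by rw [ofReal_re]; exact ha)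
  have h2 := (Complex.hasSum_re h).mul_left (1 / (2 * a))
  have e1 : ∀ γ : ℝ, 1 / (2 * a) * ((MM q γ : ℂ) * (1 / ((a : ℂ) - γ * I) + 1 / ((a : ℂ) + γ * I))).re =
      bb (fun γ => (MM q γ : ℝ)) a γ := by
    intro γ
    have h1 := ne_p ha γ
    have h2 := ne_m ha γ
    have hpos : 0 < a ^ 2 + γ ^ 2 := by positivity
    have h4 : ((a ^ 2 + γ ^ 2 : ℝ) : ℂ) = ((a : ℂ) + γ * I) * ((a : ℂ) - γ * I) := by
      push_cast
      ring_nf
      rw [I_sq]
      ring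
    have h5 : (MM q γ : ℂ) * (1 / ((a : ℂ) - γ * I) + 1 / ((a : ℂ) + γ * I)) =
        (((MM q γ : ℝ) * (2 * a) / (a ^ 2 + γ ^ 2) : ℝ) : ℂ) := by
      rw [ofReal_div, h4]
      push_cast
      field_simp
      ring
    rw [h5, ofReal_re]
    unfold bb
    field_simp
  have e2 : 1 / (2 * a) * (2 * XX q (a : ℂ)).re = WW q a := by
    unfold WW
    have : (2 * XX q (a : ℂ)).re = 2 * (XX q (a : ℂ)).re := by simp
    rw [this]
    field_simp
  rw [e2] at h2
  simp only [e1] at h2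
  exact h2.tsum_eq

/-- the relations between ordinates, as in `Rel` -/
def RelQ (q : ℕ) [NeZero q] (a : ℝ) : Prop := Rel (fun γ => (MM q γ : ℝ)) a

/-- lower bound -/
theorem low (hAS : S_AS) (hCV : S_CV) (hG : ∀ χ : DirichletCharacter ℂ q, GRHc χ) {a : ℝ} (ha : 0 < a) (ε : ℝ)
    (hε : 0 < ε) : ∀ᶠ u : ℝ in atTop, -WW q a - ε ≤ FF q a u := by
  have h := lower_bound mm0 (mm_sum hG) ha (hF_of_grh hAS hCV hG ha) ε hε
  rw [WW_eq hG ha] at h
  exact h

theorem rel_of (hAS : S_AS) (hCV : S_CV) (hG : ∀ χ : DirichletCharacter ℂ q, GRHc χ) {a : ℝ} (ha : 0 < a)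
    (h : ∀ ε : ℝ, 0 < ε → ∃ᶠ u : ℝ in atTop, FF q a u ≤ -WW q a + ε) : RelQ q a := by
  rw [← WW_eq hG ha] at h
  exact rel_of_liminf mm0 (mm_sum hG) ha (hF_of_grh hAS hCV hG ha) h

theorem of_rel (hKR : S_KR) (hAS : S_AS) (hCV : S_CV) (hG : ∀ χ : DirichletCharacter ℂ q, GRHc χ) {a : ℝ}
    (ha : 0 < a) (h : RelQ q a) (ε : ℝ) (hε : 0 < ε) : ∃ᶠ u : ℝ in atTop, FF q a u ≤ -WW q a + ε := by
  rw [← WW_eq hG ha]
  exact liminf_of_rel mm0 mms (mm_sum hG) ha (hF_of_grh hAS hCV hG ha) hKR h ε hε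

/-- integrability from an upper bound -/
lemma pos_int {f : ℝ → ℝ} (hf : Continuous f) {B : ℝ} (hB : ∀ᶠ u : ℝ in atTop, f u ≤ B) (σ : ℝ) (hσ : 0 < σ) :
    IntegrableOn (fun u => max (f u) 0 * Real.exp (-(σ * u))) (Ioi 0) := by
  obtain ⟨U, hU⟩ := eventually_atTop.1 hB
  set U1 : ℝ := max U 0 with hU1
  have hc : Continuous fun u => max (f u) 0 := hf.max continuous_const
  obtain ⟨M, hM⟩ := (isCompact_Icc (a := (0 : ℝ)) (b := U1)).bddAbove_image hc.continuousOn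
  set K : ℝ := max M (max B 0) with hK
  have hle : ∀ u : ℝ, 0 < u → max (f u) 0 ≤ K := by
    intro u hu
    rcases le_or_gt u U1 with h | h
    · exact (hM ⟨u, ⟨hu.le, h⟩, rfl⟩).trans (le_max_left _ _)
    · have h2 : f u ≤ B := hU u (by linarith [le_max_left U 0])
      exact (max_le_max h2 le_rfl).trans (le_max_right _ _)
  have hi : IntegrableOn (fun u => K * Real.exp (-(σ * u))) (Ioi 0) := by
    have h1 := (exp_neg_integrableOn_Ioi 0 hσ).const_mul K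
    have e : (fun u : ℝ => K * Real.exp (-(σ * u))) = fun u : ℝ => K * Real.exp (-σ * u) := by
      funext u
      rw [neg_mul]
    rw [e]
    exact h1
  refine Integrable.mono' hi ((hc.mul (by fun_prop)).aestronglyMeasurable) ?_
  filter_upwards [self_mem_ae_restrict (measurableSet_Ioi (a := (0 : ℝ)))] with u hu
  rw [Real.norm_of_nonneg (mul_nonneg (le_max_right _ _) (Real.exp_pos _).le)]
  exact mul_le_mul_of_nonneg_right (hle u hu) (Real.exp_pos _).le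

/-- Landau -/
theorem grh_of_below (hLT : S_LT) (hLG : S_LG) {a : ℝ} (ha : 0 < a) {B : ℝ}
    (h : ∀ᶠ u : ℝ in atTop, -B ≤ FF q a u) : ∀ χ : DirichletCharacter ℂ q, GRHc χ := by
  obtain ⟨hc, hint, hid⟩ := hLT q a ha
  have hp : ∀ σ : ℝ, 0 < σ → IntegrableOn (fun u => max (-FF q a u) 0 * Real.exp (-(σ * u))) (Ioi 0) := by
    refine fun σ hσ => pos_int hc.neg (B := B) ?_ σ hσ
    filter_upwards [h] with u hu
    show -FF q a u ≤ B
    linarith
  have hm : ∀ σ : ℝ, 1 / 2 < σ → IntegrableOn (fun u => max (-(-FF q a u)) 0 * Real.exp (-(σ * u))) (Ioi 0) := by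
    intro σ hσ
    refine Integrable.mono' (hint σ hσ) ((((hc.neg).neg.max continuous_const).mul (by fun_prop)).aestronglyMeasurable)
      (Eventually.of_forall fun u => ?_)
    rw [Real.norm_of_nonneg (mul_nonneg (le_max_right _ _) (Real.exp_pos _).le), neg_neg]
    refine mul_le_mul_of_nonneg_right ?_ (Real.exp_pos _).le
    exact max_le (le_abs_self _) (abs_nonneg _)
  have hE : Differentiable ℂ (fun z => Ex q (1 / 2 + z)) :=
    (Ex_diff (q := q)).comp (by fun_prop : Differentiable ℂ (fun z : ℂ => 1 / 2 + z))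
  intro χ s hs1 hs2 h0
  have hne : ∀ z : ℂ, 0 < z.re → z + a ≠ 0 := by
    intro z hz h
    have := congrArg Complex.re h
    rw [add_re, ofReal_re, zero_re] at this
    linarith
  have key := hLG (fun u => -FF q a u) hc.neg hp hm (fun z => Ex q (1 / 2 + z))
    (fun z => -(2 * (z + 2 * a + 1 / 2) / (a + 1 / 2) ^ 2)) (fun z => 2 * (z + a) ^ 2) hE (by fun_prop) (by fun_prop)
    ⟨1, Finset.prod_ne_zero_iff.2 fun χ _ => Mx_ne' χ (by norm_num)⟩
    (fun z hz => mul_ne_zero two_ne_zero (pow_ne_zero 2 (hne z hz)))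
    (fun t ht => by
      have e : (2 * ((t : ℂ) + a) ^ 2) = ((2 * (t + a) ^ 2 : ℝ) : ℂ) := by push_cast; ring
      rw [e, ofReal_im, ofReal_re]
      exact ⟨rfl, by positivity⟩)
    (fun z hz => by
      have := hid z hz
      exact this) (s - 1 / 2) (by
      rw [Complex.sub_re]
      have : ((1 : ℂ) / 2).re = 1 / 2 := by norm_num
      rw [this]
      linarith)
  refine key ?_
  have hs : s ≠ 1 := by
    rintro rfl
    simp at hs2
  have e : 1 / 2 + (s - 1 / 2) = s := by ring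
  show Ex q (1 / 2 + (s - 1 / 2)) = 0
  rw [e]
  exact Finset.prod_eq_zero (Finset.mem_univ χ) ((Mx_ne χ hs).2 h0)

end Pool.Agent.H293.EX
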