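import Pool.Agent.H293.EX.Asm
import Pool.Agent.H167.EX_KR
import Pool.Agent.H585.EX.PL
import Pool.Agent.H164.EX.AS
import Pool.Agent.H178.EX_CV
import Pool.Agent.H627.EX_LT
import Pool.Agent.H903.EX.LG
import Pool.Agent.H807.EX.KEKI

set_option autoImplicit false

/-!
# Project EX: assembly, part 2
-/

namespace Pool.Agent.H293.EX

open MeasureTheory Filter Topology Set Complex
open Pool.Agent.Q253.LQ Pool.Agent.Q14.LQ Pool.Agent.H293.LQ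
open DirichletCharacter (LFunction)

lemma tAS : S_AS := Pool.Agent.H164.EX.t_AS Pool.Agent.H807.EX.t_KE
lemma tCV : S_CV := Pool.Agent.H178.EXCV.t_CV Pool.Agent.H807.EX.t_KE Pool.Agent.H807.EX.t_KI

variable {q : ℕ} [NeZero q]

/-- the lower limit -/
noncomputable def LL (q : ℕ) (a : ℝ) : EReal := liminf (fun u : ℝ => (FF q a u : EReal)) atTop

lemma le_LL {a b : ℝ} (h : ∀ᶠ u : ℝ in atTop, b ≤ FF q a u) : (b : EReal) ≤ LL q a := by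
  refine le_liminf_of_le (by isBoundedDefault) ?_
  filter_upwards [h] with u hu
  exact EReal.coe_le_coe_iff.2 hu

lemma ev_of_lt {a b : ℝ} (h : (b : EReal) < LL q a) : ∀ᶠ u : ℝ in atTop, b < FF q a u := by
  have h1 := eventually_lt_of_lt_liminf h (by isBoundedDefault)
  filter_upwards [h1] with u hu
  exact EReal.coe_lt_coe_iff.1 hu

lemma fr_of_lt {a b : ℝ} (h : LL q a < (b : EReal)) : ∃ᶠ u : ℝ in atTop, FF q a u < b := by
  have h1 := frequently_lt_of_liminf_lt (by isBoundedDefault) h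
  exact h1.mono fun u hu => EReal.coe_lt_coe_iff.1 hu

theorem grh_of_LL {a : ℝ} (ha : 0 < a) (h : LL q a ≠ ⊥) : ∀ χ : DirichletCharacter ℂ q, GRHc χ := by
  obtain ⟨b, -, hb⟩ := EReal.lt_iff_exists_real_btwn.1 (bot_lt_iff_ne_bot.2 h)
  refine grh_of_below Pool.Agent.H627.EXLT.t_LT Pool.Agent.H903.EX.t_LG ha (B := -b) ?_
  filter_upwards [ev_of_lt hb] with u hu
  linarith

theorem LL_ge (hG : ∀ χ : DirichletCharacter ℂ q, GRHc χ) {a : ℝ} (ha : 0 < a) : ((-WW q a : ℝ) : EReal) ≤ LL q a := by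
  by_contra hn
  obtain ⟨b, hb1, hb2⟩ := EReal.lt_iff_exists_real_btwn.1 (not_le.1 hn)
  have hb2' : b < -WW q a := EReal.coe_lt_coe_iff.1 hb2
  have h1 := low tAS tCV hG ha (-WW q a - b) (by linarith)
  have h2 : (b : EReal) ≤ LL q a := le_LL (by
    filter_upwards [h1] with u hu
    linarith)
  exact absurd hb1 (not_lt.2 h2)

theorem LL_le_iff {a : ℝ} (w : ℝ) : LL q a ≤ (w : EReal) ↔ ∀ ε : ℝ, 0 < ε → ∃ᶠ u : ℝ in atTop, FF q a u ≤ w + ε := by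
  constructor
  · intro h ε hε
    have h1 : LL q a < ((w + ε : ℝ) : EReal) := lt_of_le_of_lt h (EReal.coe_lt_coe_iff.2 (by linarith))
    exact (fr_of_lt h1).mono fun u hu => hu.le
  · intro h
    by_contra hn
    obtain ⟨b, hb1, hb2⟩ := EReal.lt_iff_exists_real_btwn.1 (not_le.1 hn)
    have hb1' : w < b := EReal.coe_lt_coe_iff.1 hb1
    obtain ⟨u, hu1, hu2⟩ := ((h (b - w) (by linarith)).and_eventually (ev_of_lt hb2)).exists
    linarith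

/-- the positive ordinates -/
def Od (q : ℕ) [NeZero q] : Set ℝ := {γ : ℝ | 0 < γ ∧ ∃ χ : DirichletCharacter ℂ q, LFunction χ (1 / 2 + (γ : ℂ) * I) = 0}

lemma mem_Od (γ : ℝ) : γ ∈ Od q ↔ 0 < γ ∧ (MM q γ : ℝ) ≠ 0 := by
  unfold Od MM
  rw [mem_setOf_eq, Nat.cast_ne_zero, Ne, Finset.sum_eq_zero_iff]
  push Not
  refine and_congr Iff.rfl ⟨fun ⟨χ, h⟩ => ⟨χ, Finset.mem_univ _, (Pool.Agent.Q253.CP.mc_ne χ γ).2 h⟩,
    fun ⟨χ, _, h⟩ => ⟨χ, (Pool.Agent.Q253.CP.mc_ne χ γ).1 h⟩⟩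

/-- relations -/
def Rl (O : Set ℝ) (S : Finset ℝ) (n : ℝ → ℤ) : Prop := (∀ γ ∈ S, γ ∈ O) ∧ ∑ γ ∈ S, (n γ : ℝ) * γ = 0

theorem li_iff (O : Set ℝ) : LinearIndependent ℚ (fun γ : O => (γ : ℝ)) ↔
    ∀ (S : Finset ℝ) (n : ℝ → ℤ), Rl O S n → ∀ γ ∈ S, n γ = 0 := by
  classical
  rw [← LinearIndependent.iff_fractionRing ℤ ℚ, linearIndependent_iff']
  constructor
  · rintro h S n ⟨h1, h2⟩ γ hγ
    have h3 := h (S.subtype (· ∈ O)) (fun i => n i) (by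
      simp only [zsmul_eq_mul]
      rw [Finset.sum_subtype_of_mem (fun x : ℝ => (n x : ℝ) * x) h1]
      exact h2) ⟨γ, h1 γ hγ⟩ (by rw [Finset.mem_subtype]; exact hγ)
    exact h3
  · intro h s g hs i hi
    have h1 := h (s.image Subtype.val) (fun x => if hx : x ∈ O then g ⟨x, hx⟩ else 0) ⟨?_, ?_⟩ i
      (Finset.mem_image_of_mem _ hi)
    · simpa using h1
    · intro γ hγ
      obtain ⟨x, -, rfl⟩ := Finset.mem_image.1 hγ
      exact x.2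
    · rw [Finset.sum_image (fun x _ y _ hxy => Subtype.ext hxy)]
      rw [← hs]
      refine Finset.sum_congr rfl fun x _ => ?_
      simp [zsmul_eq_mul]

/-- the condition of `a` -/
def Cn (O : Set ℝ) (a : ℝ) : Prop := ∀ (S : Finset ℝ) (n : ℝ → ℤ), Rl O S n →
  ∏ γ ∈ S, (((a : ℂ) + γ * I) / ((a : ℂ) - γ * I)) ^ (n γ) = 1

lemma relQ_iff (a : ℝ) : RelQ q a ↔ Cn (Od q) a := by
  constructor
  · rintro h S n ⟨h1, h2⟩
    exact h S (fun γ hγ => (mem_Od γ).1 (h1 γ hγ)) n h2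
  · intro h S hS n hn
    exact h S n ⟨fun γ hγ => (mem_Od γ).2 (hS γ hγ), hn⟩

theorem LL_le_of (hG : ∀ χ : DirichletCharacter ℂ q, GRHc χ) {a : ℝ} (ha : 0 < a) :
    LL q a ≤ ((-WW q a : ℝ) : EReal) ↔ Cn (Od q) a := by
  rw [LL_le_iff, ← relQ_iff]
  exact ⟨rel_of tAS tCV hG ha, of_rel Pool.Agent.H167.EXKR.t_KR tAS tCV hG ha⟩

theorem LL_eq_iff {a : ℝ} (ha : 0 < a) :
    LL q a = ((-WW q a : ℝ) : EReal) ↔ (∀ χ : DirichletCharacter ℂ q, GRHc χ) ∧ Cn (Od q) a := by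
  constructor
  · intro h
    have hG : ∀ χ : DirichletCharacter ℂ q, GRHc χ := grh_of_LL ha (by rw [h]; exact EReal.coe_ne_bot _)
    exact ⟨hG, (LL_le_of hG ha).1 h.le⟩
  · rintro ⟨hG, hC⟩
    exact le_antisymm ((LL_le_of hG ha).2 hC) (LL_ge hG ha)

lemma li_cn {O : Set ℝ} (h : LinearIndependent ℚ (fun γ : O => (γ : ℝ))) (a : ℝ) : Cn O a := by
  intro S n hR
  have h1 := (li_iff O).1 h S n hR
  refine Finset.prod_eq_one fun γ hγ => ?_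
  rw [h1 γ hγ, zpow_zero]

theorem len_of {O : Set ℝ} (hO : ∀ γ ∈ O, 0 < γ) {A : Finset ℝ} (hA : ∀ a ∈ A, 0 < a ∧ Cn O a) {S : Finset ℝ}
    {n : ℝ → ℤ} (hR : Rl O S n) (hn : ∃ γ ∈ S, n γ ≠ 0) : 2 * (A.card : ℤ) + 3 ≤ ∑ γ ∈ S, |n γ| :=
  Pool.Agent.H585.EX.t_PL S n (fun γ hγ => hO γ (hR.1 γ hγ)) hR.2 hn A fun a ha => ⟨(hA a ha).1, (hA a ha).2 S n hR⟩

theorem li_of_inf {O : Set ℝ} (hO : ∀ γ ∈ O, 0 < γ) (h : {a : ℝ | 0 < a ∧ Cn O a}.Infinite) :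
    LinearIndependent ℚ (fun γ : O => (γ : ℝ)) := by
  rw [li_iff]
  intro S n hR γ hγ
  by_contra hn
  obtain ⟨A, hA1, hA2⟩ := h.exists_subset_card_eq (∑ γ ∈ S, |n γ|).toNat
  have h1 := len_of hO (fun a ha => hA1 ha) hR ⟨γ, hγ, hn⟩
  rw [hA2] at h1
  omega

end Pool.Agent.H293.EX
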