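import Mathlib

set_option autoImplicit false

/-!
# Project EX (helper293): linear independence of ordinates and the extreme values of explicit error terms

Statements which need only Mathlib.  Goal: for `a > 0` let
`F_a(x) = φ(q) ∑_{n ≤ x, n ≡ 1 (q)} Λ(n) n^(-1/2) (n/x)^a log(x/n) - √x/(a+1/2)²`.  Then the Riemann hypothesis modulo `q` and
the linear independence of the positive ordinates hold together if and only if the lower limit of `F_a` is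
`-(1/a) ∑_χ (ξ'/ξ)(1/2+a, χ)` for infinitely many `a`.
-/

namespace Pool.Agent.H293.EX

open MeasureTheory Filter Topology Set Complex

/-- KR.  Kronecker's theorem in continuous time.  Proof: the real numbers `v ≠ 0` of the form `∑ n_γ γ`, `n_γ` integers, are
countable, so there is `h > 0` such that `h v` is not in `2πℤ` for all of them (exclude countably many `h`).  Put `g γ = e^(iγh)`.
If `∏ (g γ)^(n γ) = 1` then `h ∑ n_γ γ ∈ 2πℤ`, so `∑ n_γ γ = 0`, so `∏ (w γ)^(n γ) = 1`.  Now Kronecker's theorem in discrete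
time: `Pool/Graph/R_seed8/W654/Kron.lean` (`Pool.Agent.W654....kronecker`, in the torus `UnitAddTorus S`; there `∃ n : ℕ` without
`T ≤ n`), or the statement `S_KRO` of `Pool/Graph/R_seed8/H612/LR/Stm.lean` (with arbitrarily large exponent; grep the library for
its proof `KRO`), gives `t` with `‖(g γ)^t - w γ‖ < ε` for all `γ ∈ S`, `t ≥ T/h`; take `u = t h`.  (To get `T ≤ u` from the
version without `T ≤ n`: apply it to `w γ / (g γ)^N` in place of `w γ`, `N ≥ T/h`, or use recurrence.) -/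
def S_KR : Prop := ∀ (S : Finset ℝ) (w : ℝ → ℂ), (∀ γ ∈ S, ‖w γ‖ = 1) →
  (∀ n : ℝ → ℤ, ∑ γ ∈ S, (n γ : ℝ) * γ = 0 → ∏ γ ∈ S, (w γ) ^ (n γ) = 1) →
  ∀ ε : ℝ, 0 < ε → ∀ T : ℝ, ∃ u : ℝ, T ≤ u ∧ ∀ γ ∈ S, ‖cexp (I * γ * u) - w γ‖ < ε

/-- PL.  Proof.  Let `L = ∑ |n_γ|`, `n⁺, n⁻ : ℕ` the positive and negative parts of `n_γ`, and
`A(X) = ∏ (X + iγ)^(n⁺) (X - iγ)^(n⁻)`, `B(X) = ∏ (X - iγ)^(n⁺) (X + iγ)^(n⁻)`, both monic of degree `L`, `D = A - B`.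
(1) `D ≠ 0`: let `n_γ₀ ≠ 0`, say `> 0`; then `A(-iγ₀) = 0` and `B(-iγ₀) ≠ 0` (the factors are `-i(γ₀+γ)` and `i(γ-γ₀)`, the
latter only with exponent `n⁻_γ`, which is `0` for `γ = γ₀`); similarly for `n_γ₀ < 0` (evaluate at `iγ₀`).
(2) `deg D ≤ L - 3`: the coefficient of `X^(L-1)` of `A` is `∑ iγ (n⁺ - n⁻) = i ∑ n_γ γ = 0`, and that of `B` is `-` the same
(`Polynomial.nextCoeff`, `Polynomial.Monic.nextCoeff_prod` or `nextCoeff_mul`, `nextCoeff_pow`); so `deg D ≤ L - 2`.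
`A(-X) = (-1)^L B(X)` and `B(-X) = (-1)^L A(X)`, so `D(-X) = (-1)^(L+1) D(X)`, hence the coefficient of `X^(L-2)` in `D` is `0`.
(3) For `a ∈ A` both `a` and `-a` are roots of `D` (`a - iγ ≠ 0` for `a > 0` real; for `-a` use the parity), these are
`2 |A|` different roots, so `2 |A| ≤ deg D ≤ L - 3` (`Polynomial.card_roots'`, `Multiset.toFinset`), where `L ≥ 3` because
`D ≠ 0` (if `L ≤ 2` then the coefficients of `X^L`, `X^(L-1)`, `X^(L-2)` of `D` vanish, so `D = 0`). -/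
def S_PL : Prop := ∀ (S : Finset ℝ) (n : ℝ → ℤ), (∀ γ ∈ S, 0 < γ) → ∑ γ ∈ S, (n γ : ℝ) * γ = 0 →
  (∃ γ ∈ S, n γ ≠ 0) → ∀ A : Finset ℝ,
    (∀ a ∈ A, 0 < a ∧ ∏ γ ∈ S, (((a : ℂ) + γ * I) / ((a : ℂ) - γ * I)) ^ (n γ) = 1) →
    2 * (A.card : ℤ) + 3 ≤ ∑ γ ∈ S, |n γ|

/-- the kernel -/
noncomputable def kap (a w : ℝ) : ℝ := (a - (a ^ 2 - 1) / 2 * w) * Real.exp (-(a * w))

/-- KE.  Antiderivative of `κ(w) e^(-sw)`: `-((a - c w)/(a+s) - c/(a+s)²) e^(-(a+s)w)` with `c = (a²-1)/2`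
(`integral_Ioi_of_hasDerivAt_of_tendsto`), or `integral_exp_mul_complex_Ioi` and the Gamma integral. -/
def S_KE : Prop := ∀ (a : ℝ) (s : ℂ), 0 < a → -a < s.re →
  IntegrableOn (fun w : ℝ => (kap a w : ℂ) * cexp (-(s * w))) (Ioi 0) ∧
  ∫ w in Ioi (0 : ℝ), (kap a w : ℂ) * cexp (-(s * w)) = a / (a + s) - (a ^ 2 - 1) / 2 / (a + s) ^ 2

/-- KI.  The kernel identity.  For `v ≤ 0`: `e^v ∫ κ(w) e^(-w) dw = e^v / 2` (KE with `s = 1`).  For `v > 0`: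
on `(0, v)` the integrand is `e^(-v) κ(w) e^w`, with the antiderivative `(-1/2 + (1+a)w/2) e^((1-a)w)` of `κ(w) e^w`; on
`(v, ∞)` it is `e^v κ(w) e^(-w)`, with the antiderivative `(-1/2 + (a-1)w/2) e^(-(1+a)w)` of `κ(w) e^(-w)`; the sum is
`e^(-v)/2 + v e^(-av)`. -/
def S_KI : Prop := ∀ a v : ℝ, 0 < a →
  IntegrableOn (fun w : ℝ => kap a w * Real.exp (-|v - w|)) (Ioi 0) ∧
  max v 0 * Real.exp (-(a * v)) =
    -(1 / 2) * Real.exp (-|v|) + ∫ w in Ioi (0 : ℝ), kap a w * Real.exp (-|v - w|)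

/-- AS.  `P` is continuous, bounded for `v ≤ 0`, and for `v ≥ 0` close to an almost periodic function; then the same for
`-P/2 + κ * P`.  Proof: write `P = -Z + r` on all of `ℝ`, `Z(v) = ∑ m_γ 2/(1+γ²) cos(γv)`; `r` is bounded and tends to zero, so
`∫ κ(w) r(u-w) dw → 0` for `u → ∞` (dominated convergence, `κ` is integrable by KE with `s = 0`; `|κ|` too), and exchanging sum and
integral `-Z/2 + κ * Z` is the sum over `γ` of `m_γ (2/(1+γ²)) Re (e^(iγu) (-1/2 + κ̂(iγ)))`, with `κ̂` given by KE at `s = iγ`: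
`(2/(1+γ²)) (-1/2 + a/(a+iγ) - (a²-1)/2/(a+iγ)²) = 1/(a+iγ)²`. -/
def S_AS : Prop := ∀ (a : ℝ) (m : ℝ → ℝ) (P : ℝ → ℝ) (C : ℝ), 0 < a → (∀ γ, 0 ≤ m γ) →
  Summable (fun γ : ℝ => m γ * (2 / (1 + γ ^ 2))) → Continuous P → (∀ v, v ≤ 0 → |P v| ≤ C) →
  (∀ v, 0 ≤ v → |P v + ∑' γ : ℝ, m γ * (2 / (1 + γ ^ 2) * Real.cos (γ * v))| ≤ C * Real.exp (-(v / 4))) →
  Tendsto (fun u : ℝ => (-(1 / 2) * P u + ∫ w in Ioi (0 : ℝ), kap a w * P (u - w)) +
    ∑' γ : ℝ, m γ * (cexp (I * γ * u) / ((a : ℂ) + I * γ) ^ 2).re) atTop (𝓝 0)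

end Pool.Agent.H293.EX
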