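import Pool.Agent.H293.EX.Stm2

set_option autoImplicit false

/-! # Project EX (helper293), number fields: general index sets -/

namespace Pool.Agent.H293.EX

open MeasureTheory Filter Topology Set Complex
open Pool.Agent.Q253.LQ Pool.Agent.Q14.LQ

/-- `∑ b_k e^(-|v - l_k|) - (8/3) e^(v/2)` -/
noncomputable def PG {κ : Type} (b l : κ → ℝ) (v : ℝ) : ℝ :=
  (∑' k, b k * Real.exp (-|v - l k|)) - 8 / 3 * Real.exp (v / 2)

/-- `∑ b_k max(u - l_k, 0) e^(-a(u - l_k)) - e^(u/2)/(a+1/2)²` -/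
noncomputable def FG {κ : Type} (b l : κ → ℝ) (a u : ℝ) : ℝ :=
  (∑' k, b k * (max (u - l k) 0 * Real.exp (-(a * (u - l k))))) - Real.exp (u / 2) / (a + 1 / 2) ^ 2

/-- the hypotheses on the coefficients -/
def HG {κ : Type} (b l : κ → ℝ) : Prop := (∀ k, 0 ≤ b k) ∧ (∀ k, 0 ≤ l k) ∧
  ∀ x : ℝ, 1 / 2 < x → Summable (fun k => b k * Real.exp (-(x * l k)))

/-- CVG.  As `S_CV` (proof: `Pool/Agent/H178/EX_CV.lean`), for a countable index set `κ` in place of `ℕ`, `l k` in place of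
`Real.log n`. -/
def S_CVG : Prop := ∀ (κ : Type) [Countable κ] (b l : κ → ℝ), HG b l → ∀ a : ℝ, 0 < a → ∀ u : ℝ,
  IntegrableOn (fun w : ℝ => kap a w * PG b l (u - w)) (Ioi 0) ∧
  FG b l a u = -(1 / 2) * PG b l u + ∫ w in Ioi (0 : ℝ), kap a w * PG b l (u - w)

/-- LTG.  As `S_LT` (proof: `Pool/Agent/H627/EX_LT.lean`), for a countable index set; only the part on the sum itself. -/
def S_LTG : Prop := ∀ (κ : Type) [Countable κ] (b l : κ → ℝ), HG b l → ∀ a : ℝ, 0 < a →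
  Continuous (FG b l a) ∧
  (∀ σ : ℝ, 1 / 2 < σ → IntegrableOn (fun u => |FG b l a u| * Real.exp (-(σ * u))) (Ioi 0)) ∧
  ∀ z : ℂ, 1 < z.re → lp (fun u => -FG b l a u) z =
    -(∑' k, (b k : ℂ) * cexp (-z * l k)) / (z + a) ^ 2 + 1 / ((a + 1 / 2) ^ 2 * (z - 1 / 2))

/-- LG2.  As `S_LG` (proof: `Pool/Agent/H903/EX/LG.lean`), but `H` is only differentiable in the right half plane. -/
def S_LG2 : Prop := ∀ (f : ℝ → ℝ), Continuous f →
  (∀ σ : ℝ, 0 < σ → IntegrableOn (fun u => max (f u) 0 * Real.exp (-(σ * u))) (Ioi 0)) →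
  (∀ σ : ℝ, 1 / 2 < σ → IntegrableOn (fun u => max (-f u) 0 * Real.exp (-(σ * u))) (Ioi 0)) →
  ∀ (E H D : ℂ → ℂ), Differentiable ℂ E → (∀ z : ℂ, 0 < z.re → DifferentiableAt ℂ H z) →
  Differentiable ℂ D → (∃ z, E z ≠ 0) →
  (∀ z : ℂ, 0 < z.re → D z ≠ 0) → (∀ t : ℝ, 0 < t → (D t).im = 0 ∧ 0 < (D t).re) →
  (∀ z : ℂ, 1 < z.re → D z * lp f z * E z = 2 * deriv E z - H z * E z) →
  ∀ z : ℂ, 0 < z.re → E z ≠ 0

end Pool.Agent.H293.EX
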