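import Pool.Agent.H293.EX.PH

set_option autoImplicit false

/-!
# Project EX: the upper limit
-/

namespace Pool.Agent.H293.EX

open MeasureTheory Filter Topology Set Complex
open scoped ComplexConjugate

section upper

variable {m : ℝ → ℝ} (hm0 : ∀ γ, 0 ≤ m γ) (hms : ∀ γ, m (-γ) = m γ)
  (hs : Summable (fun γ : ℝ => m γ * (2 / (1 + γ ^ 2)))) {a : ℝ} (ha : 0 < a)

include ha in
lemma rr_zero (u : ℝ) : rr a 0 u = 1 := by
  unfold rr
  rw [vv_zero ha]
  simp

/-- the sum of the terms `b (1 + rr)` -/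
noncomputable def UU (m : ℝ → ℝ) (a u : ℝ) : ℝ := ∑' γ : ℝ, bb m a γ * (1 + rr a γ u)

include hm0 hs ha in
lemma uu_sum (u : ℝ) : Summable fun γ : ℝ => bb m a γ * (1 + rr a γ u) := by
  refine Summable.of_nonneg_of_le (fun γ => mul_nonneg (bb_nonneg hm0 a γ) ?_) (fun γ => ?_)
    ((bb_sum hm0 hs ha).mul_left 2)
  · linarith [le_rr ha γ u]
  · have h1 := rr_le ha γ u
    have h2 := bb_nonneg hm0 a γ
    nlinarith

include hm0 hs ha in
lemma tsum_eq_uu (u : ℝ) : ∑' γ : ℝ, m γ * (cexp (I * γ * u) / ((a : ℂ) + I * γ) ^ 2).re =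
    UU m a u - ∑' γ : ℝ, bb m a γ := by
  unfold UU
  rw [← (uu_sum hm0 hs ha u).tsum_sub (bb_sum hm0 hs ha)]
  refine tsum_congr fun γ => ?_
  rw [coef_eq ha]
  unfold bb rr
  ring

include hm0 hs ha in
lemma two_le_uu (u : ℝ) : 2 * bb m a 0 ≤ UU m a u := by
  have h := (uu_sum hm0 hs ha u).le_tsum 0 fun j _ =>
    mul_nonneg (bb_nonneg hm0 a j) (by linarith [le_rr ha j u])
  rw [rr_zero ha] at h
  unfold UU
  linarith

variable {F : ℝ → ℝ} (hF : Tendsto (fun u : ℝ => F u + ∑' γ : ℝ, m γ * (cexp (I * γ * u) / ((a : ℂ) + I * γ) ^ 2).re)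
  atTop (𝓝 0))

include hm0 hs ha hF in
lemma lim_UU : Tendsto (fun u : ℝ => F u + (UU m a u - ∑' γ : ℝ, bb m a γ)) atTop (𝓝 0) := by
  refine hF.congr fun u => ?_
  rw [tsum_eq_uu hm0 hs ha]

include hm0 hs ha hF in
theorem upper_bound (ε : ℝ) (hε : 0 < ε) :
    ∀ᶠ u : ℝ in atTop, F u ≤ (∑' γ : ℝ, bb m a γ) - 2 * bb m a 0 + ε := by
  have h := lim_UU hm0 hs ha hF
  filter_upwards [h.eventually (gt_mem_nhds hε)] with u hu
  have := two_le_uu hm0 hs ha u
  linarith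

include hm0 hms hs ha hF in
theorem limsup_of_indep (hKR : S_KR) (h : ∀ S : Finset ℝ, (∀ γ ∈ S, 0 < γ ∧ m γ ≠ 0) → ∀ n : ℝ → ℤ,
    ∑ γ ∈ S, (n γ : ℝ) * γ = 0 → ∀ γ ∈ S, n γ = 0) (ε : ℝ) (hε : 0 < ε) :
    ∃ᶠ u : ℝ in atTop, (∑' γ : ℝ, bb m a γ) - 2 * bb m a 0 - ε ≤ F u := by
  classical
  have hlim := lim_UU hm0 hs ha hF
  have hbs := bb_sum hm0 hs ha
  rw [frequently_atTop]
  intro T
  obtain ⟨S0, hS0⟩ : ∃ S0 : Finset ℝ, ∑' γ : ↥((S0 : Set ℝ)ᶜ), bb m a γ < ε / 8 := by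
    have h1 := tendsto_tsum_compl_atTop_zero (bb m a)
    exact (h1.eventually (gt_mem_nhds (show (0 : ℝ) < ε / 8 by linarith))).exists
  set W : ℝ := ∑' γ : ℝ, bb m a γ with hW
  have hW0 : 0 ≤ W := tsum_nonneg (bb_nonneg hm0 a)
  set δ : ℝ := ε / (8 * (W + 1)) with hδd
  have hδ : 0 < δ := by positivity
  set S : Finset ℝ := ((S0 ∪ S0.image (fun x => -x)).filter fun γ => 0 < γ ∧ m γ ≠ 0) with hSd
  have hS : ∀ γ ∈ S, 0 < γ ∧ m γ ≠ 0 := fun γ hγ => (Finset.mem_filter.1 hγ).2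
  obtain ⟨T1, hT1⟩ := eventually_atTop.1 (hlim.eventually (lt_mem_nhds (show -(ε / 2) < 0 by linarith)))
  obtain ⟨u, hu, hu2⟩ := hKR S (fun γ => -vv a γ) (fun γ _ => by rw [norm_neg, vv_norm ha γ])
    (fun n hn => Finset.prod_eq_one fun γ hγ => by rw [h S hS n hn γ hγ, zpow_zero]) δ hδ (max T T1)
  refine ⟨u, (le_max_left _ _).trans hu, ?_⟩
  have h3 : -(ε / 2) < F u + (UU m a u - W) := hT1 u ((le_max_right _ _).trans hu)
  have hclose : ∀ γ ∈ S, 1 + rr a γ u ≤ δ := by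
    intro γ hγ
    have h5 := one_sub_le (norm_e γ u) (w := -vv a γ) (by rw [norm_neg, vv_norm ha γ])
    have h6 := hu2 γ hγ
    have h7 : (cexp (I * γ * u) * conj (-vv a γ)).re = -rr a γ u := by
      unfold rr
      rw [map_neg, mul_neg, neg_re]
    rw [h7] at h5
    linarith
  -- closeness for the frequencies of `S0`
  have h4 : ∀ γ ∈ S0, bb m a γ * (1 + rr a γ u) ≤ bb m a γ * δ + if γ = 0 then 2 * bb m a 0 else 0 := by
    intro γ hγ
    by_cases hmγ : m γ = 0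
    · have e : bb m a γ = 0 := by unfold bb; rw [hmγ, zero_div]
      rw [e, zero_mul, zero_mul, zero_add]
      have := bb_nonneg hm0 a 0
      split_ifs <;> linarith
    · rcases lt_trichotomy γ 0 with hneg | hzero | hpos
      · rw [if_neg hneg.ne, add_zero]
        refine mul_le_mul_of_nonneg_left ?_ (bb_nonneg hm0 a γ)
        have hmem : -γ ∈ S := by
          rw [hSd, Finset.mem_filter]
          refine ⟨Finset.mem_union_right _ (Finset.mem_image.2 ⟨γ, hγ, rfl⟩), by linarith, ?_⟩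
          rw [hms]
          exact hmγ
        have h7 : rr a (-γ) u = rr a γ u := by
          unfold rr
          rw [e_neg, vv_neg, ← map_mul, conj_re]
        have h8 := hclose (-γ) hmem
        rw [h7] at h8
        exact h8
      · rw [if_pos hzero, hzero, rr_zero ha]
        have := mul_nonneg (bb_nonneg hm0 a 0) hδ.le
        linarith
      · rw [if_neg hpos.ne', add_zero]
        refine mul_le_mul_of_nonneg_left ?_ (bb_nonneg hm0 a γ)
        refine hclose γ ?_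
        rw [hSd, Finset.mem_filter]
        exact ⟨Finset.mem_union_left _ hγ, hpos, hmγ⟩
  have h5 : UU m a u ≤ 2 * bb m a 0 + ε / 2 := by
    unfold UU
    have hd := uu_sum hm0 hs ha u
    rw [← hd.sum_add_tsum_compl (s := S0)]
    have h6 : ∑ γ ∈ S0, bb m a γ * (1 + rr a γ u) ≤ ε / 8 + 2 * bb m a 0 := by
      calc ∑ γ ∈ S0, bb m a γ * (1 + rr a γ u) ≤
            ∑ γ ∈ S0, (bb m a γ * δ + if γ = 0 then 2 * bb m a 0 else 0) := Finset.sum_le_sum h4
        _ = (∑ γ ∈ S0, bb m a γ) * δ + ∑ γ ∈ S0, (if γ = 0 then 2 * bb m a 0 else 0) := by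
            rw [Finset.sum_add_distrib, Finset.sum_mul]
        _ ≤ W * δ + 2 * bb m a 0 := by
            refine add_le_add (mul_le_mul_of_nonneg_right (hbs.sum_le_tsum S0 fun γ _ => bb_nonneg hm0 a γ) hδ.le) ?_
            rw [Finset.sum_ite_eq']
            have := bb_nonneg hm0 a 0
            split_ifs <;> linarith
        _ ≤ (W + 1) * δ + 2 * bb m a 0 := by nlinarith
        _ = ε / 8 + 2 * bb m a 0 := by
          rw [hδd]
          field_simp
    have h7 : ∑' γ : ↥((S0 : Set ℝ)ᶜ), bb m a γ * (1 + rr a γ u) ≤ 2 * ∑' γ : ↥((S0 : Set ℝ)ᶜ), bb m a γ := by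
      rw [← tsum_mul_left]
      refine Summable.tsum_le_tsum (fun γ => ?_) (hd.subtype _) ((hbs.subtype _).mul_left 2)
      have h8 := rr_le ha γ u
      have h9 := bb_nonneg hm0 a (γ : ℝ)
      nlinarith
    linarith
  linarith

end upper

end Pool.Agent.H293.EX
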